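import Pool.Agent.TH957.Zag.Grp

/-!
# Crossed homomorphisms with local conditions and norm relations
-/

namespace Pool.Agent.TH957.Sch

open Pool.Agent.TH957.Zag (nrm normIdeal)
open Topology

section Defs

variable {G : Type} [Group G] [TopologicalSpace G] {K : Type} [Field K] [TopologicalSpace K]
variable (ψ : G →* K) (𝒯 : Set (Subgroup G))

/-- `f` is a crossed homomorphism on the subgroup `U`, for the action of `G` on `K` through `ψ` -/
def IsCrossed (U : Subgroup G) (f : G → K) : Prop := ∀ g ∈ U, ∀ h ∈ U, f (g * h) = f g + ψ g * f h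

/-- `f` is on the subgroup `U` the coboundary of an element of `K` -/
def IsCob (U : Subgroup G) (f : G → K) : Prop := ∃ m : K, ∀ g ∈ U, f g = (ψ g - 1) * m

/-- `f` is a continuous crossed homomorphism on `U` whose restrictions to the subgroups `T ∩ U`, `T ∈ 𝒯`, are
coboundaries -/
def InSel (U : Subgroup G) (f : G → K) : Prop :=
  IsCrossed ψ U f ∧ ContinuousOn f (U : Set G) ∧ ∀ T ∈ 𝒯, IsCob ψ (T ⊓ U) f

/-- every continuous crossed homomorphism on `U` which is locally a coboundary is a coboundary -/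
def Vanishes (U : Subgroup G) : Prop := ∀ f : G → K, InSel ψ 𝒯 U f → IsCob ψ U f

end Defs

section Conj

variable {G : Type} [Group G] {K : Type} [Field K] (ψ : G →* K)

lemma psi_ne (g : G) : ψ g ≠ 0 := by
  intro h
  have : ψ (g * g⁻¹) = 0 := by rw [map_mul, h, zero_mul]
  rw [mul_inv_cancel, map_one] at this
  exact one_ne_zero this

lemma psi_inv (g : G) : ψ g⁻¹ = (ψ g)⁻¹ := by
  apply eq_inv_of_mul_eq_one_left
  rw [← map_mul, inv_mul_cancel, map_one]

lemma psi_conj (t g : G) : ψ (t⁻¹ * g * t) = ψ g := by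
  rw [map_mul, map_mul, psi_inv]
  field_simp [psi_ne ψ t]

/-- conjugation of a function by `t` -/
def act (t : G) (f : G → K) : G → K := fun g => ψ t * f (t⁻¹ * g * t)

lemma act_mul (s t : G) (f : G → K) : act ψ (s * t) f = act ψ s (act ψ t f) := by
  funext g
  unfold act
  rw [map_mul, mul_assoc]
  congr 3
  group

end Conj

/-- the data of a group `N` of elements which normalize the kernel of `cls : N → A` -/
structure Data (G A : Type) [Group G] [Group A] where
  N : Subgroup G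
  cls : N →* A
  surj : Function.Surjective cls

namespace Data

variable {G A : Type} [Group G] [Group A] (D : Data G A)

/-- the preimage of a subgroup of `A` -/
def up (C : Subgroup A) : Subgroup G := (C.comap D.cls).map D.N.subtype

lemma mem_up {C : Subgroup A} {g : G} : g ∈ D.up C ↔ ∃ h : g ∈ D.N, D.cls ⟨g, h⟩ ∈ C := by
  unfold up
  simp only [Subgroup.mem_map, Subgroup.mem_comap, Subgroup.coe_subtype, Subtype.exists, exists_and_right,
    exists_eq_right]

/-- the kernel -/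
def U : Subgroup G := D.up ⊥

lemma mem_U {g : G} : g ∈ D.U ↔ ∃ h : g ∈ D.N, D.cls ⟨g, h⟩ = 1 := by
  unfold U
  rw [mem_up]
  simp only [Subgroup.mem_bot]

lemma up_le (C : Subgroup A) : D.up C ≤ D.N := fun _ hg => (D.mem_up.1 hg).1

lemma U_le (C : Subgroup A) : D.U ≤ D.up C := by
  intro g hg
  obtain ⟨h, h1⟩ := D.mem_U.1 hg
  exact D.mem_up.2 ⟨h, h1 ▸ C.one_mem⟩

lemma conj_mem {t g : G} (ht : t ∈ D.N) (hg : g ∈ D.U) : t⁻¹ * g * t ∈ D.U := by
  obtain ⟨h, h1⟩ := D.mem_U.1 hg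
  refine D.mem_U.2 ⟨D.N.mul_mem (D.N.mul_mem (D.N.inv_mem ht) h) ht, ?_⟩
  have : (⟨t⁻¹ * g * t, D.N.mul_mem (D.N.mul_mem (D.N.inv_mem ht) h) ht⟩ : D.N) =
      (⟨t, ht⟩ : D.N)⁻¹ * ⟨g, h⟩ * ⟨t, ht⟩ := rfl
  rw [this, map_mul, map_mul, h1, mul_one, map_inv, inv_mul_cancel]

/-- representatives of the elements of `A` -/
noncomputable def s (a : A) : G := (D.surj a).choose

lemma s_mem (a : A) : D.s a ∈ D.N := (D.surj a).choose.2

lemma cls_s (a : A) : D.cls ⟨D.s a, D.s_mem a⟩ = a := (D.surj a).choose_spec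

/-- the class of an element, and `1` outside `N` -/
noncomputable def c (g : G) : A := open Classical in if h : g ∈ D.N then D.cls ⟨g, h⟩ else 1

lemma c_eq {g : G} (h : g ∈ D.N) : D.c g = D.cls ⟨g, h⟩ := by
  classical
  exact dif_pos h

lemma c_s (a : A) : D.c (D.s a) = a := by rw [D.c_eq (D.s_mem a), D.cls_s]

lemma c_mul {g h : G} (hg : g ∈ D.N) (hh : h ∈ D.N) : D.c (g * h) = D.c g * D.c h := by
  rw [D.c_eq hg, D.c_eq hh, D.c_eq (D.N.mul_mem hg hh), ← map_mul]
  rfl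

lemma c_inv {g : G} (hg : g ∈ D.N) : D.c g⁻¹ = (D.c g)⁻¹ := by
  rw [D.c_eq hg, D.c_eq (D.N.inv_mem hg), ← map_inv]
  rfl

lemma mem_U' {g : G} : g ∈ D.U ↔ g ∈ D.N ∧ D.c g = 1 := by
  rw [D.mem_U]
  constructor
  · rintro ⟨h, h1⟩
    exact ⟨h, by rw [D.c_eq h, h1]⟩
  · rintro ⟨h, h1⟩
    exact ⟨h, by rw [← D.c_eq h, h1]⟩

lemma mem_up' {C : Subgroup A} {g : G} : g ∈ D.up C ↔ g ∈ D.N ∧ D.c g ∈ C := by
  rw [D.mem_up]
  constructor
  · rintro ⟨h, h1⟩
    exact ⟨h, by rwa [D.c_eq h]⟩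
  · rintro ⟨h, h1⟩
    exact ⟨h, by rwa [← D.c_eq h]⟩

end Data

section Main

variable {G A : Type} [Group G] [TopologicalSpace G] [IsTopologicalGroup G] [Group A] [Fintype A]
variable {K : Type} [Field K] [CharZero K] [TopologicalSpace K] [IsTopologicalRing K]
variable (ψ : G →* K) (𝒯 : Set (Subgroup G)) (D : Data G A)

omit [TopologicalSpace G] [IsTopologicalGroup G] [CharZero K] [TopologicalSpace K] [IsTopologicalRing K]
  [Fintype A] in
lemma crossed_inv {U : Subgroup G} {f : G → K} (hf : IsCrossed ψ U f) {g : G} (hg : g ∈ U) :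
    f g⁻¹ = - (ψ g)⁻¹ * f g := by
  have h1 := hf g⁻¹ (U.inv_mem hg) g hg
  have h2 := hf 1 U.one_mem 1 U.one_mem
  rw [mul_one, map_one, one_mul] at h2
  rw [inv_mul_cancel, psi_inv] at h1
  have h3 : f 1 = 0 := by linear_combination -h2
  rw [h3] at h1
  linear_combination -h1

omit [TopologicalSpace G] [IsTopologicalGroup G] [TopologicalSpace K] [IsTopologicalRing K] in
/-- restriction to a subgroup of finite index is injective -/
lemma cob_of_finite_index (E : Subgroup G) (hE : E ≤ D.N) (f : G → K) (hf : IsCrossed ψ E f)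
    (hc : IsCob ψ (E ⊓ D.U) f) : IsCob ψ E f := by
  classical
  obtain ⟨m, hm⟩ := hc
  set F : G → K := fun g => f g - (ψ g - 1) * m with hF
  have hFc : IsCrossed ψ E F := by
    intro g hg h hh
    simp only [hF]
    rw [hf g hg h hh, map_mul]
    ring
  have hF0 : ∀ u ∈ E, u ∈ D.U → F u = 0 := by
    intro u hu hu'
    simp only [hF]
    rw [hm u ⟨hu, hu'⟩, sub_self]
  have hconst : ∀ g ∈ E, ∀ h ∈ E, D.c g = D.c h → F g = F h := by
    intro g hg h hh hgh
    have h1 : h = g * (g⁻¹ * h) := by group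
    have h2 : g⁻¹ * h ∈ E := E.mul_mem (E.inv_mem hg) hh
    have h3 : g⁻¹ * h ∈ D.U := by
      rw [D.mem_U']
      refine ⟨hE h2, ?_⟩
      rw [D.c_mul (D.N.inv_mem (hE hg)) (hE hh), D.c_inv (hE hg), hgh, inv_mul_cancel]
    rw [h1, hFc g hg _ h2, hF0 _ h2 h3, mul_zero, add_zero]
  -- representatives
  set Ē : Finset A := Finset.univ.filter fun a => ∃ d ∈ E, D.c d = a with hĒ
  have hmem : ∀ a, a ∈ Ē ↔ ∃ d ∈ E, D.c d = a := fun a => by simp [hĒ]
  have hex : ∀ a, ∃ d, a ∈ Ē → d ∈ E ∧ D.c d = a := by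
    intro a
    by_cases ha : a ∈ Ē
    · obtain ⟨d, hd, hda⟩ := (hmem a).1 ha
      exact ⟨d, fun _ => ⟨hd, hda⟩⟩
    · exact ⟨1, fun h => absurd h ha⟩
  choose d hd using hex
  have hone : (1 : A) ∈ Ē := (hmem 1).2 ⟨1, E.one_mem, by
    rw [D.c_eq D.N.one_mem]; exact map_one D.cls⟩
  have hcard : (Ē.card : K) ≠ 0 := by
    have : Ē.card ≠ 0 := (Finset.card_pos.2 ⟨1, hone⟩).ne'
    exact_mod_cast this
  have key : ∀ g ∈ E, (Ē.card : K) * F g = (1 - ψ g) * ∑ a ∈ Ē, F (d a) := by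
    intro g hg
    have h1 : ∑ a ∈ Ē, F (g * d a) = ∑ a ∈ Ē, F (d a) := by
      refine Finset.sum_nbij' (fun a => D.c g * a) (fun a => (D.c g)⁻¹ * a) ?_ ?_ ?_ ?_ ?_
      · intro a ha
        rw [hmem]
        refine ⟨g * d a, E.mul_mem hg (hd a ha).1, ?_⟩
        rw [D.c_mul (hE hg) (hE (hd a ha).1), (hd a ha).2]
      · intro a ha
        rw [hmem]
        refine ⟨g⁻¹ * d a, E.mul_mem (E.inv_mem hg) (hd a ha).1, ?_⟩
        rw [D.c_mul (D.N.inv_mem (hE hg)) (hE (hd a ha).1), D.c_inv (hE hg), (hd a ha).2]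
      · intro a _
        simp
      · intro a _
        simp
      · intro a ha
        have h2 : D.c g * a ∈ Ē := by
          rw [hmem]
          refine ⟨g * d a, E.mul_mem hg (hd a ha).1, ?_⟩
          rw [D.c_mul (hE hg) (hE (hd a ha).1), (hd a ha).2]
        apply hconst _ (E.mul_mem hg (hd a ha).1) _ (hd _ h2).1
        rw [D.c_mul (hE hg) (hE (hd a ha).1), (hd a ha).2, (hd _ h2).2]
    have h2 : ∑ a ∈ Ē, F (g * d a) = (Ē.card : K) * F g + ψ g * ∑ a ∈ Ē, F (d a) := by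
      rw [Finset.sum_congr rfl fun a ha => hFc g hg _ (hd a ha).1, Finset.sum_add_distrib, Finset.sum_const,
        nsmul_eq_mul, Finset.mul_sum]
    rw [h1] at h2
    linear_combination -h2
  refine ⟨m - (Ē.card : K)⁻¹ * ∑ a ∈ Ē, F (d a), ?_⟩
  intro g hg
  have h1 := key g hg
  have h2 : F g = (Ē.card : K)⁻¹ * ((1 - ψ g) * ∑ a ∈ Ē, F (d a)) := by
    rw [← h1, inv_mul_cancel_left₀ hcard]
  have h3 : f g = F g + (ψ g - 1) * m := by simp [hF]
  rw [h3, h2]
  ring

omit [TopologicalSpace G] [IsTopologicalGroup G] [CharZero K] [TopologicalSpace K] [IsTopologicalRing K]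
  [Fintype A] in
lemma cob_act {t : G} (ht : t ∈ D.N) {f : G → K} (hf : IsCob ψ D.U f) : IsCob ψ D.U (act ψ t f) := by
  obtain ⟨m, hm⟩ := hf
  refine ⟨ψ t * m, fun g hg => ?_⟩
  unfold act
  rw [hm _ (D.conj_mem ht hg), psi_conj]
  ring

omit [CharZero K] [Fintype A] in
lemma sel_act (h𝒯 : ∀ T ∈ 𝒯, ∀ t : G, T.map (MulAut.conj t).toMonoidHom ∈ 𝒯) {t : G} (ht : t ∈ D.N) {f : G → K}
    (hf : InSel ψ 𝒯 D.U f) : InSel ψ 𝒯 D.U (act ψ t f) := by
  obtain ⟨h1, h2, h3⟩ := hf
  refine ⟨?_, ?_, ?_⟩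
  · intro g hg h hh
    unfold act
    have e : t⁻¹ * (g * h) * t = (t⁻¹ * g * t) * (t⁻¹ * h * t) := by group
    rw [e, h1 _ (D.conj_mem ht hg) _ (D.conj_mem ht hh), psi_conj]
    ring
  · unfold act
    apply ContinuousOn.mul continuousOn_const
    apply h2.comp
    · exact ((continuous_const.mul continuous_id).mul continuous_const).continuousOn
    · intro g hg
      exact D.conj_mem ht hg
  · intro T hT
    obtain ⟨m, hm⟩ := h3 _ (h𝒯 T hT t⁻¹)
    refine ⟨ψ t * m, fun g hg => ?_⟩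
    unfold act
    have h4 : t⁻¹ * g * t ∈ T.map (MulAut.conj t⁻¹).toMonoidHom := by
      refine ⟨g, hg.1, ?_⟩
      simp
    rw [hm _ ⟨h4, D.conj_mem ht hg.2⟩, psi_conj]
    ring

omit [TopologicalSpace G] [IsTopologicalGroup G] [CharZero K] [TopologicalSpace K] [IsTopologicalRing K]
  [Fintype A] in
lemma act_sub {t : G} (ht : t ∈ D.U) {f : G → K} (hf : IsCrossed ψ D.U f) : IsCob ψ D.U (act ψ t f - f) := by
  refine ⟨f t, fun g hg => ?_⟩
  have h0 : t ∈ D.N := D.up_le ⊥ ht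
  have h1 := hf t ht (t⁻¹ * g * t) (D.conj_mem h0 hg)
  have e : t * (t⁻¹ * g * t) = g * t := by group
  rw [e, hf g hg t ht] at h1
  simp only [Pi.sub_apply, act]
  linear_combination -h1

/-- the corestriction of a crossed homomorphism on `U` to the preimage of `C` -/
noncomputable def cor (C : Subgroup A) (f : G → K) : G → K := fun g =>
  open Classical in ∑ c ∈ Finset.univ.filter (fun c : A => c ∈ C),
    ψ (D.s (D.c g * c)) * f ((D.s (D.c g * c))⁻¹ * g * D.s c)

omit [TopologicalSpace G] [IsTopologicalGroup G] [CharZero K] [TopologicalSpace K] [IsTopologicalRing K] in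
lemma cor_crossed (C : Subgroup A) {f : G → K} (hf : IsCrossed ψ D.U f) : IsCrossed ψ (D.up C) (cor ψ D C f) := by
  classical
  intro g hg h hh
  obtain ⟨hgN, hgC⟩ := D.mem_up'.1 hg
  obtain ⟨hhN, hhC⟩ := D.mem_up'.1 hh
  unfold cor
  have hmem : ∀ {x : G} {a b : A}, x ∈ D.N → D.c x * a = b → (D.s b)⁻¹ * x * D.s a ∈ D.U := by
    intro x a b hx hab
    rw [D.mem_U']
    refine ⟨D.N.mul_mem (D.N.mul_mem (D.N.inv_mem (D.s_mem b)) hx) (D.s_mem a), ?_⟩
    rw [D.c_mul (D.N.mul_mem (D.N.inv_mem (D.s_mem b)) hx) (D.s_mem a), D.c_mul (D.N.inv_mem (D.s_mem b)) hx,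
      D.c_inv (D.s_mem b), D.c_s, D.c_s, mul_assoc, hab, inv_mul_cancel]
  have h1 : ∀ c : A, ψ (D.s (D.c (g * h) * c)) * f ((D.s (D.c (g * h) * c))⁻¹ * (g * h) * D.s c) =
      ψ (D.s (D.c g * (D.c h * c))) * f ((D.s (D.c g * (D.c h * c)))⁻¹ * g * D.s (D.c h * c)) +
        ψ g * (ψ (D.s (D.c h * c)) * f ((D.s (D.c h * c))⁻¹ * h * D.s c)) := by
    intro c
    rw [D.c_mul hgN hhN, mul_assoc (D.c g)]
    set b := D.c h * c with hb
    set a := D.c g * b with ha
    have e : (D.s a)⁻¹ * (g * h) * D.s c = ((D.s a)⁻¹ * g * D.s b) * ((D.s b)⁻¹ * h * D.s c) := by group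
    have e2 : ψ (D.s a) * ψ ((D.s a)⁻¹ * g * D.s b) = ψ g * ψ (D.s b) := by
      rw [← map_mul, ← map_mul]
      congr 1
      group
    rw [e, hf _ (hmem hgN ha.symm) _ (hmem hhN hb.symm), mul_add, ← mul_assoc (ψ (D.s a)), e2]
    ring
  rw [Finset.sum_congr rfl fun c _ => h1 c, Finset.sum_add_distrib, ← Finset.mul_sum]
  congr 1
  refine Finset.sum_nbij' (fun c => D.c h * c) (fun c => (D.c h)⁻¹ * c) ?_ ?_ ?_ ?_ ?_
  · intro c hc
    simp only [Finset.mem_filter, Finset.mem_univ, true_and] at hc ⊢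
    exact C.mul_mem hhC hc
  · intro c hc
    simp only [Finset.mem_filter, Finset.mem_univ, true_and] at hc ⊢
    exact C.mul_mem (C.inv_mem hhC) hc
  · intro c _
    simp
  · intro c _
    simp
  · intro c _
    rfl

omit [TopologicalSpace G] [IsTopologicalGroup G] [CharZero K] [TopologicalSpace K] [IsTopologicalRing K] in
open Classical in
lemma cor_eq (C : Subgroup A) (f : G → K) {g : G} (hg : g ∈ D.U) :
    cor ψ D C f g = ∑ c ∈ Finset.univ.filter (fun c : A => c ∈ C), act ψ (D.s c) f g := by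
  unfold cor act
  rw [(D.mem_U'.1 hg).2]
  simp only [one_mul]

omit [TopologicalSpace G] [IsTopologicalGroup G] [CharZero K] [TopologicalSpace K] [IsTopologicalRing K]
  [Fintype A] in
lemma cob_sum {U : Subgroup G} {ι : Type} (s : Finset ι) (F : ι → G → K) (h : ∀ i ∈ s, IsCob ψ U (F i)) :
    IsCob ψ U (∑ i ∈ s, F i) := by
  classical
  induction s using Finset.induction_on with
  | empty => exact ⟨0, fun g _ => by simp⟩
  | insert i s hi ih =>
    rw [Finset.sum_insert hi]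
    obtain ⟨m, hm⟩ := h i (Finset.mem_insert_self _ _)
    obtain ⟨m', hm'⟩ := ih fun j hj => h j (Finset.mem_insert_of_mem hj)
    refine ⟨m + m', fun g hg => ?_⟩
    rw [Pi.add_apply, hm g hg, hm' g hg]
    ring

/-- the corestriction satisfies the local conditions -/
lemma cor_sel (h𝒯 : ∀ T ∈ 𝒯, ∀ t : G, T.map (MulAut.conj t).toMonoidHom ∈ 𝒯) (hU : IsOpen (D.U : Set G))
    (C : Subgroup A) {f : G → K} (hf : InSel ψ 𝒯 D.U f) : InSel ψ 𝒯 (D.up C) (cor ψ D C f) := by
  classical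
  have hcr := cor_crossed ψ D C hf.1
  refine ⟨hcr, ?_, ?_⟩
  · intro g₀ hg₀
    apply ContinuousAt.continuousWithinAt
    have h0 : ContinuousAt (cor ψ D C f) 1 := by
      have h1 : ContinuousAt (fun g => ∑ c ∈ Finset.univ.filter (fun c : A => c ∈ C), act ψ (D.s c) f g) 1 := by
        apply tendsto_finsetSum
        intro c _
        exact (sel_act ψ 𝒯 D h𝒯 (D.s_mem c) hf).2.1.continuousAt (hU.mem_nhds D.U.one_mem)
      apply h1.congr
      filter_upwards [hU.mem_nhds D.U.one_mem] with g hg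
      exact (cor_eq ψ D C f hg).symm
    have h2 : ContinuousAt (fun g => cor ψ D C f g₀ + ψ g₀ * cor ψ D C f (g₀⁻¹ * g)) g₀ := by
      apply ContinuousAt.add continuousAt_const
      apply ContinuousAt.mul continuousAt_const
      apply ContinuousAt.comp (g := cor ψ D C f)
      · rw [inv_mul_cancel]
        exact h0
      · exact (continuous_const.mul continuous_id).continuousAt
    apply h2.congr
    have h3 : {g | g₀⁻¹ * g ∈ D.U} ∈ 𝓝 g₀ := by
      have h5 : ContinuousAt (fun g : G => g₀⁻¹ * g) g₀ := (continuous_const.mul continuous_id).continuousAt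
      have h6 : (D.U : Set G) ∈ 𝓝 (g₀⁻¹ * g₀) := by
        rw [inv_mul_cancel]
        exact hU.mem_nhds D.U.one_mem
      exact h5 h6
    filter_upwards [h3] with g hg
    have h4 := hcr g₀ hg₀ (g₀⁻¹ * g) (D.U_le C hg)
    rw [← h4]
    congr 1
    group
  · intro T hT
    apply cob_of_finite_index ψ D (T ⊓ D.up C) (le_trans inf_le_right (D.up_le C))
    · intro g hg h hh
      exact hcr g hg.2 h hh.2
    · have h1 : IsCob ψ (T ⊓ D.U) (∑ c ∈ Finset.univ.filter (fun c : A => c ∈ C), act ψ (D.s c) f) :=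
        cob_sum ψ _ _ fun c _ => (sel_act ψ 𝒯 D h𝒯 (D.s_mem c) hf).2.2 T hT
      obtain ⟨m, hm⟩ := h1
      refine ⟨m, fun g hg => ?_⟩
      rw [cor_eq ψ D C f hg.2]
      have := hm g ⟨hg.1.1, hg.2⟩
      rwa [Finset.sum_apply] at this

open Classical in
/-- if there is no nontrivial class over the preimage of `C`, the norms by `C` vanish -/
theorem norm_cob (h𝒯 : ∀ T ∈ 𝒯, ∀ t : G, T.map (MulAut.conj t).toMonoidHom ∈ 𝒯) (hU : IsOpen (D.U : Set G))
    (C : Subgroup A) (hC : Vanishes ψ 𝒯 (D.up C)) {f : G → K} (hf : InSel ψ 𝒯 D.U f) :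
    IsCob ψ D.U (∑ c ∈ Finset.univ.filter (fun c : A => c ∈ C), act ψ (D.s c) f) := by
  obtain ⟨m, hm⟩ := hC _ (cor_sel ψ 𝒯 D h𝒯 hU C hf)
  refine ⟨m, fun g hg => ?_⟩
  rw [Finset.sum_apply, ← cor_eq ψ D C f hg]
  exact hm g (D.U_le C hg)

/-- the space of crossed homomorphisms with the local conditions -/
def Sel (U : Subgroup G) : Submodule ℚ (G → K) where
  carrier := {f | InSel ψ 𝒯 U f}
  zero_mem' := ⟨fun g _ h _ => by simp, continuousOn_const, fun T _ => ⟨0, fun g _ => by simp⟩⟩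
  add_mem' := by
    rintro a b ⟨ha, ha', ha''⟩ ⟨hb, hb', hb''⟩
    refine ⟨fun g hg h hh => ?_, ha'.add hb', fun T hT => ?_⟩
    · rw [Pi.add_apply, Pi.add_apply, Pi.add_apply, ha g hg h hh, hb g hg h hh]
      ring
    · obtain ⟨m, hm⟩ := ha'' T hT
      obtain ⟨m', hm'⟩ := hb'' T hT
      refine ⟨m + m', fun g hg => ?_⟩
      rw [Pi.add_apply, hm g hg, hm' g hg]
      ring
  smul_mem' := by
    rintro q a ⟨ha, ha', ha''⟩
    refine ⟨fun g hg h hh => ?_, ?_, fun T hT => ?_⟩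
    · rw [Pi.smul_apply, Pi.smul_apply, Pi.smul_apply, ha g hg h hh, Rat.smul_def, Rat.smul_def, Rat.smul_def]
      ring
    · have : (q • a : G → K) = fun g => (q : K) * a g := by
        funext g
        rw [Pi.smul_apply, Rat.smul_def]
      rw [this]
      exact continuousOn_const.mul ha'
    · obtain ⟨m, hm⟩ := ha'' T hT
      refine ⟨(q : K) * m, fun g hg => ?_⟩
      rw [Pi.smul_apply, hm g hg, Rat.smul_def]
      ring

/-- the space of coboundaries -/
def Cob (U : Subgroup G) : Submodule ℚ (G → K) where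
  carrier := {f | IsCob ψ U f}
  zero_mem' := ⟨0, fun g _ => by simp⟩
  add_mem' := by
    rintro a b ⟨m, hm⟩ ⟨m', hm'⟩
    refine ⟨m + m', fun g hg => ?_⟩
    rw [Pi.add_apply, hm g hg, hm' g hg]
    ring
  smul_mem' := by
    rintro q a ⟨m, hm⟩
    refine ⟨(q : K) * m, fun g hg => ?_⟩
    rw [Pi.smul_apply, hm g hg, Rat.smul_def]
    ring

/-- the action of `t` as a linear map -/
def actL (t : G) : (G → K) →ₗ[ℚ] (G → K) where
  toFun f := act ψ t f
  map_add' a b := by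
    funext g
    simp only [act, Pi.add_apply]
    ring
  map_smul' q a := by
    funext g
    simp only [act, Pi.smul_apply, Rat.smul_def, RingHom.id_apply]
    ring

variable (h𝒯 : ∀ T ∈ 𝒯, ∀ t : G, T.map (MulAut.conj t).toMonoidHom ∈ 𝒯)

/-- the action of `t ∈ N` on the space `Sel` -/
def actSel {t : G} (ht : t ∈ D.N) : Sel ψ 𝒯 D.U →ₗ[ℚ] Sel (K := K) ψ 𝒯 D.U :=
  ((actL ψ t).comp (Sel ψ 𝒯 D.U).subtype).codRestrict (Sel ψ 𝒯 D.U) fun f => sel_act ψ 𝒯 D h𝒯 ht f.2

/-- the coboundaries in `Sel` -/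
def CobS (U : Subgroup G) : Submodule ℚ (Sel (K := K) ψ 𝒯 U) := (Cob ψ U).comap (Sel ψ 𝒯 U).subtype

/-- the action of `a ∈ A` on the quotient of `Sel` by the coboundaries -/
noncomputable def rhoFun (a : A) : (Sel ψ 𝒯 D.U ⧸ CobS (K := K) ψ 𝒯 D.U) →ₗ[ℚ] (Sel ψ 𝒯 D.U ⧸ CobS (K := K) ψ 𝒯 D.U) :=
  Submodule.mapQ _ _ (actSel ψ 𝒯 D h𝒯 (D.s_mem a)) fun f hf => cob_act ψ D (D.s_mem a) hf

omit [Fintype A] in
lemma mk_eq_of {f f' : Sel (K := K) ψ 𝒯 D.U} (h : IsCob ψ D.U ((f : G → K) - f')) :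
    (Submodule.Quotient.mk f : Sel ψ 𝒯 D.U ⧸ CobS (K := K) ψ 𝒯 D.U) = Submodule.Quotient.mk f' := by
  rw [Submodule.Quotient.eq]
  exact h

/-- the representation of `A` on the quotient of `Sel` by the coboundaries -/
noncomputable def rho : A →* Module.End ℚ (Sel ψ 𝒯 D.U ⧸ CobS (K := K) ψ 𝒯 D.U) where
  toFun a := rhoFun ψ 𝒯 D h𝒯 a
  map_one' := by
    apply LinearMap.ext
    intro x
    obtain ⟨f, rfl⟩ := Submodule.Quotient.mk_surjective _ x
    apply mk_eq_of
    have h1 : D.s 1 ∈ D.U := by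
      rw [D.mem_U']
      exact ⟨D.s_mem 1, D.c_s 1⟩
    exact act_sub ψ D h1 f.2.1
  map_mul' a b := by
    apply LinearMap.ext
    intro x
    obtain ⟨f, rfl⟩ := Submodule.Quotient.mk_surjective _ x
    apply mk_eq_of
    show IsCob ψ D.U (act ψ (D.s (a * b)) f - act ψ (D.s a) (act ψ (D.s b) f))
    set u : G := (D.s a * D.s b)⁻¹ * D.s (a * b) with hu
    have hmemN : D.s a * D.s b ∈ D.N := D.N.mul_mem (D.s_mem a) (D.s_mem b)
    have huU : u ∈ D.U := by
      rw [D.mem_U']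
      refine ⟨D.N.mul_mem (D.N.inv_mem hmemN) (D.s_mem _), ?_⟩
      rw [hu, D.c_mul (D.N.inv_mem hmemN) (D.s_mem _), D.c_inv hmemN, D.c_mul (D.s_mem a) (D.s_mem b), D.c_s, D.c_s,
        D.c_s, inv_mul_cancel]
    have e1 : D.s (a * b) = (D.s a * D.s b) * u := by
      rw [hu]
      group
    have e2 : act ψ (D.s (a * b)) (f : G → K) - act ψ (D.s a) (act ψ (D.s b) f) =
        act ψ (D.s a * D.s b) (act ψ u f - f) := by
      rw [e1, act_mul, ← act_mul ψ (D.s a) (D.s b)]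
      funext g
      simp only [act, Pi.sub_apply]
      ring
    rw [e2]
    exact cob_act ψ D hmemN (act_sub ψ D huU f.2.1)

/-- the action of the rational group algebra -/
noncomputable def alg : MonoidAlgebra ℚ A →ₐ[ℚ] Module.End ℚ (Sel ψ 𝒯 D.U ⧸ CobS (K := K) ψ 𝒯 D.U) :=
  MonoidAlgebra.lift ℚ _ A (rho ψ 𝒯 D h𝒯)

include h𝒯 in
/-- **norm relations and the vanishing of classes** -/
theorem vanishes_of_relation (hU : IsOpen (D.U : Set G)) (S : Set (Subgroup A))
    (h1 : (1 : MonoidAlgebra ℚ A) ∈ normIdeal S) (hS : ∀ C ∈ S, Vanishes ψ 𝒯 (D.up C)) : Vanishes ψ 𝒯 D.U := by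
  classical
  have key : ∀ z ∈ normIdeal S, alg ψ 𝒯 D h𝒯 z = 0 := by
    intro z hz
    unfold normIdeal at hz
    induction hz using Submodule.span_induction with
    | mem z hz =>
      obtain ⟨a, b, C, hC, rfl⟩ := hz
      have hn : alg ψ 𝒯 D h𝒯 (nrm C) = 0 := by
        apply LinearMap.ext
        intro x
        obtain ⟨f, rfl⟩ := Submodule.Quotient.mk_surjective _ x
        have h2 := norm_cob ψ 𝒯 D h𝒯 hU C (hS C hC) f.2
        have h3 : alg ψ 𝒯 D h𝒯 (nrm C) (Submodule.Quotient.mk f) =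
            Submodule.Quotient.mk (∑ c ∈ Finset.univ.filter (fun c : A => c ∈ C), actSel ψ 𝒯 D h𝒯 (D.s_mem c) f) := by
          unfold nrm
          rw [map_sum, LinearMap.sum_apply]
          have h4 : (Submodule.Quotient.mk (∑ c ∈ Finset.univ.filter (fun c : A => c ∈ C),
              actSel ψ 𝒯 D h𝒯 (D.s_mem c) f) : Sel ψ 𝒯 D.U ⧸ CobS (K := K) ψ 𝒯 D.U) =
              ∑ c ∈ Finset.univ.filter (fun c : A => c ∈ C),
                (CobS (K := K) ψ 𝒯 D.U).mkQ (actSel ψ 𝒯 D h𝒯 (D.s_mem c) f) := by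
            rw [← map_sum]
            rfl
          rw [h4]
          refine Finset.sum_congr rfl fun c _ => ?_
          rw [alg, MonoidAlgebra.lift_of]
          rfl
        rw [h3, LinearMap.zero_apply, Submodule.Quotient.mk_eq_zero]
        show IsCob ψ D.U _
        convert h2 using 1
        rw [Submodule.coe_subtype, AddSubmonoidClass.coe_finsetSum]
        rfl
      rw [map_mul, map_mul, hn, mul_zero, zero_mul]
    | zero => exact map_zero _
    | add a b _ _ ha hb => rw [map_add, ha, hb, add_zero]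
    | smul r a _ ha => rw [map_smul, ha, smul_zero]
  intro f hf
  have h2 := key 1 h1
  rw [map_one] at h2
  have h3 := LinearMap.congr_fun h2 (Submodule.Quotient.mk ⟨f, hf⟩)
  rw [Module.End.one_apply, LinearMap.zero_apply, Submodule.Quotient.mk_eq_zero] at h3
  exact h3

end Main

end Pool.Agent.TH957.Sch
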