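import Pool.Agent.TH957.Sch.Coh

/-!
# Schneider's conjecture: the groups `Ш¹(O_L[1/p], ℚ_p(r))` by crossed homomorphisms, and norm relations
-/

namespace Pool.Agent.TH957.Sch

open Pool.Agent.TH957.Zag (nrm normIdeal CyclicPQ)

/-- an algebraic closure of `ℚ` -/
abbrev Qb : Type := AlgebraicClosure ℚ

/-- the absolute Galois group of `ℚ`, with the Krull topology -/
abbrev GQ : Type := Qb ≃ₐ[ℚ] Qb

/-- the `r`-th power of the `p`-adic cyclotomic character, with values in `ℚ_p` -/
noncomputable def chi (p : ℕ) [Fact p.Prime] (r : ℤ) : GQ →* ℚ_[p] :=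
  (PadicInt.Coe.ringHom : ℤ_[p] →+* ℚ_[p]).toMonoidHom.comp ((Units.coeHom ℤ_[p]).comp ((zpowGroupHom r).comp
    ((cyclotomicCharacter Qb p).comp (MulSemiringAction.toRingAut GQ Qb))))

/-- `y` is in the maximal ideal of the valuation ring `A` -/
def InMax (A : ValuationSubring Qb) (y : Qb) : Prop := y = 0 ∨ y⁻¹ ∉ A

lemma inMax_iff (A : ValuationSubring Qb) (y : Qb) : InMax A y ↔ A.valuation y < 1 := by
  unfold InMax
  by_cases hy : y = 0
  · simp [hy]
  · have h0 : A.valuation y ≠ 0 := (Valuation.ne_zero_iff _).2 hy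
    rw [← A.valuation_le_one_iff, not_le, map_inv₀]
    constructor
    · rintro (h | h)
      · exact absurd h hy
      · exact (one_lt_inv₀ (zero_lt_iff.2 h0)).1 h
    · intro h
      exact Or.inr ((one_lt_inv₀ (zero_lt_iff.2 h0)).2 h)

/-- the decomposition group of a valuation ring of `Q̄` -/
def dec (A : ValuationSubring Qb) : Subgroup GQ where
  carrier := {g | ∀ x, g x ∈ A ↔ x ∈ A}
  mul_mem' {a b} ha hb x := by rw [AlgEquiv.mul_apply, ha, hb]
  one_mem' x := Iff.rfl
  inv_mem' {g} hg x := by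
    rw [← hg (g⁻¹ x)]
    have : g (g⁻¹ x) = x := g.apply_symm_apply x
    rw [this]

/-- the inertia group of a valuation ring of `Q̄` -/
def inertia (A : ValuationSubring Qb) : Subgroup GQ where
  carrier := {g | g ∈ dec A ∧ ∀ x ∈ A, InMax A (g x - x)}
  mul_mem' {a b} ha hb := by
    refine ⟨(dec A).mul_mem ha.1 hb.1, fun x hx => ?_⟩
    have h1 := hb.2 x hx
    have h2 := ha.2 (b x) ((hb.1 x).2 hx)
    rw [inMax_iff] at *
    have e : (a * b) x - x = (a (b x) - b x) + (b x - x) := by
      rw [AlgEquiv.mul_apply]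
      ring
    rw [e]
    exact Valuation.map_add_lt _ h2 h1
  one_mem' := ⟨(dec A).one_mem, fun x _ => Or.inl (sub_self x)⟩
  inv_mem' {g} hg := by
    refine ⟨(dec A).inv_mem hg.1, fun x hx => ?_⟩
    have h3 : g (g⁻¹ x) = x := g.apply_symm_apply x
    have h1 : g⁻¹ x ∈ A := by
      rw [← hg.1 (g⁻¹ x), h3]
      exact hx
    have h2 := hg.2 _ h1
    rw [h3] at h2
    rw [inMax_iff] at *
    rw [← Valuation.map_neg, neg_sub]
    exact h2

/-- the local subgroups: decomposition groups above `p`, inertia groups away from `p` -/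
def locals (p : ℕ) : Set (Subgroup GQ) :=
  {T | ∃ A : ValuationSubring Qb, A ≠ ⊤ ∧
    (((p : Qb)⁻¹ ∉ A ∧ T = dec A) ∨ ((p : Qb)⁻¹ ∈ A ∧ T = inertia A))}

/-- the valuation ring `t A` -/
noncomputable def tr (t : GQ) (A : ValuationSubring Qb) : ValuationSubring Qb :=
  A.comap ((t⁻¹ : GQ) : Qb →+* Qb)

lemma mem_tr {t : GQ} {A : ValuationSubring Qb} {x : Qb} : x ∈ tr t A ↔ t⁻¹ x ∈ A := Iff.rfl

lemma inMax_tr {t : GQ} {A : ValuationSubring Qb} {y : Qb} : InMax (tr t A) y ↔ InMax A (t⁻¹ y) := by
  unfold InMax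
  rw [mem_tr, map_inv₀, map_eq_zero]

lemma mem_map_conj (t g : GQ) (T : Subgroup GQ) :
    g ∈ T.map (MulAut.conj t).toMonoidHom ↔ t⁻¹ * g * t ∈ T := by
  constructor
  · rintro ⟨h, hh, rfl⟩
    have : t⁻¹ * (MulAut.conj t).toMonoidHom h * t = h := by
      simp only [MulEquiv.coe_toMonoidHom, MulAut.conj_apply]
      group
    rwa [this]
  · intro h
    refine ⟨_, h, ?_⟩
    simp only [MulEquiv.coe_toMonoidHom, MulAut.conj_apply]
    group

lemma dec_tr (t : GQ) (A : ValuationSubring Qb) : (dec A).map (MulAut.conj t).toMonoidHom = dec (tr t A) := by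
  ext g
  rw [mem_map_conj]
  constructor
  · intro h x
    rw [mem_tr, mem_tr, ← h (t⁻¹ x)]
    have : (t⁻¹ * g * t) (t⁻¹ x) = t⁻¹ (g x) := by
      show t⁻¹ (g (t (t⁻¹ x))) = _
      rw [show t (t⁻¹ x) = x from t.apply_symm_apply x]
    rw [this]
  · intro h x
    have h1 := h (t x)
    rw [mem_tr, mem_tr, show t⁻¹ (t x) = x from t.symm_apply_apply x] at h1
    exact h1

lemma inertia_tr (t : GQ) (A : ValuationSubring Qb) :
    (inertia A).map (MulAut.conj t).toMonoidHom = inertia (tr t A) := by
  ext g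
  rw [mem_map_conj]
  have hd : t⁻¹ * g * t ∈ dec A ↔ g ∈ dec (tr t A) := by rw [← dec_tr, mem_map_conj]
  constructor
  · rintro ⟨h1, h2⟩
    refine ⟨hd.1 h1, fun x hx => ?_⟩
    rw [inMax_tr]
    have h3 := h2 (t⁻¹ x) (mem_tr.1 hx)
    have : (t⁻¹ * g * t) (t⁻¹ x) = t⁻¹ (g x) := by
      show t⁻¹ (g (t (t⁻¹ x))) = _
      rw [show t (t⁻¹ x) = x from t.apply_symm_apply x]
    rwa [this, ← map_sub] at h3
  · rintro ⟨h1, h2⟩
    refine ⟨hd.2 h1, fun x hx => ?_⟩
    have h3 := h2 (t x) (mem_tr.2 (by rwa [show t⁻¹ (t x) = x from t.symm_apply_apply x]))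
    rw [inMax_tr, map_sub, show t⁻¹ (t x) = x from t.symm_apply_apply x] at h3
    exact h3

lemma locals_conj (p : ℕ) : ∀ T ∈ locals p, ∀ t : GQ, T.map (MulAut.conj t).toMonoidHom ∈ locals p := by
  rintro T ⟨A, hA, h⟩ t
  refine ⟨tr t A, ?_, ?_⟩
  · intro h1
    apply hA
    rw [eq_top_iff]
    intro x _
    have h2 : t x ∈ tr t A := by rw [h1]; trivial
    rwa [mem_tr, show t⁻¹ (t x) = x from t.symm_apply_apply x] at h2
  · have hp : (p : Qb)⁻¹ ∈ tr t A ↔ (p : Qb)⁻¹ ∈ A := by
      rw [mem_tr, map_inv₀, map_natCast]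
    rw [hp]
    rcases h with ⟨h1, rfl⟩ | ⟨h1, rfl⟩
    · exact Or.inl ⟨h1, dec_tr t A⟩
    · exact Or.inr ⟨h1, inertia_tr t A⟩

/-- **Schneider's vanishing** for the number field `L ⊂ Q̄`, the prime `p` and the twist `r`: every continuous
crossed homomorphism `f : Gal(Q̄/L) → ℚ_p(r)` which is unramified outside `p` and a coboundary on the decomposition
groups above `p` is a coboundary -/
def Schneider (p : ℕ) [Fact p.Prime] (r : ℤ) (L : IntermediateField ℚ Qb) : Prop :=
  Vanishes (chi p r) (locals p) L.fixingSubgroup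

/-- the automorphism group of the field `L` -/
abbrev AutF (L : IntermediateField ℚ Qb) : Type := L ≃ₐ[ℚ] L

noncomputable instance autGroup (L : IntermediateField ℚ Qb) : Group (AutF L) := AlgEquiv.aut

noncomputable instance autFintype (L : IntermediateField ℚ Qb) [FiniteDimensional ℚ L] : Fintype (AutF L) :=
  AlgEquiv.fintype ℚ L

/-- a norm relation in `ℚ[A]` with respect to the subgroups in `S`: `1` is in the two-sided ideal generated by the
norm elements of these subgroups -/
def HasRelation (A : Type) [Group A] [Fintype A] (S : Set (Subgroup A)) : Prop :=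
  (1 : MonoidAlgebra ℚ A) ∈ normIdeal S

/-- the center of `A` is cyclic -/
def CyclicCenter (A : Type) [Group A] : Prop := IsCyclic (Subgroup.center A)

/-- the fixed field of a group of automorphisms of `L`, as a subfield of `Q̄` -/
noncomputable def fixF (L : IntermediateField ℚ Qb) (C : Subgroup (AutF L)) : IntermediateField ℚ Qb :=
  IntermediateField.lift (IntermediateField.fixedField C)

/-- the elements of `Gal(Q̄/ℚ)` which map `L` to itself -/
def stab (L : IntermediateField ℚ Qb) : Subgroup GQ where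
  carrier := {g | ∀ x, g x ∈ L ↔ x ∈ L}
  mul_mem' {a b} ha hb x := by rw [AlgEquiv.mul_apply, ha, hb]
  one_mem' x := Iff.rfl
  inv_mem' {g} hg x := by
    rw [← hg (g⁻¹ x)]
    have : g (g⁻¹ x) = x := g.apply_symm_apply x
    rw [this]

/-- restriction to `L` -/
noncomputable def restr (L : IntermediateField ℚ Qb) : stab L →* (AutF L) where
  toFun g :=
    { toFun := fun x => ⟨(g : GQ) x, (g.2 x).2 x.2⟩
      invFun := fun x => ⟨(g : GQ).symm x, by
        rw [← g.2, AlgEquiv.apply_symm_apply]
        exact x.2⟩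
      left_inv := fun x => Subtype.ext ((g : GQ).symm_apply_apply x)
      right_inv := fun x => Subtype.ext ((g : GQ).apply_symm_apply x)
      map_mul' := fun x y => Subtype.ext (map_mul (g : GQ) (x : Qb) y)
      map_add' := fun x y => Subtype.ext (map_add (g : GQ) (x : Qb) y)
      commutes' := fun x => Subtype.ext ((g : GQ).commutes x) }
  map_one' := by
    ext x
    rfl
  map_mul' a b := by
    ext x
    rfl

lemma restr_apply (L : IntermediateField ℚ Qb) (g : stab L) (x : L) : ((restr L g x : L) : Qb) = (g : GQ) x := rfl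

instance isAlgClosure_Qb : IsAlgClosure ℚ Qb where
  isAlgClosed := inferInstance
  isAlgebraic := by
    have h : @Algebra.IsAlgebraic ℚ (AlgebraicClosure ℚ) _ _ (AlgebraicClosure.instAlgebra ℚ) := inferInstance
    convert h
    exact Subsingleton.elim _ _

instance : Normal ℚ Qb := IsAlgClosure.normal ℚ Qb

lemma restr_surj (L : IntermediateField ℚ Qb) : Function.Surjective (restr L) := by
  intro c
  have h1 : ∀ x : L, c.liftNormal Qb (x : Qb) = c x := fun x => c.liftNormal_commutes Qb x
  have h2 : c.liftNormal Qb ∈ stab L := by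
    intro x
    constructor
    · intro hx
      have h3 := h1 (c.symm ⟨_, hx⟩)
      rw [AlgEquiv.apply_symm_apply] at h3
      have h4 : x = (c.symm ⟨_, hx⟩ : L) := ((c.liftNormal Qb).injective h3).symm
      rw [h4]
      exact (c.symm ⟨_, hx⟩).2
    · intro hx
      rw [h1 ⟨x, hx⟩]
      exact (c ⟨x, hx⟩).2
  refine ⟨⟨c.liftNormal Qb, h2⟩, ?_⟩
  ext x
  exact h1 x

/-- the data of `Gal(Q̄/L)` in its stabilizer -/
noncomputable def dat (L : IntermediateField ℚ Qb) : Data GQ (AutF L) := ⟨stab L, restr L, restr_surj L⟩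

lemma dat_U (L : IntermediateField ℚ Qb) : (dat L).U = L.fixingSubgroup := by
  ext g
  rw [Data.mem_U, IntermediateField.mem_fixingSubgroup_iff]
  constructor
  · rintro ⟨h, h1⟩ x hx
    have h2 := DFunLike.congr_fun h1 (⟨x, hx⟩ : L)
    exact congrArg Subtype.val h2
  · intro h
    have hN : g ∈ stab L := by
      intro x
      constructor
      · intro hx
        have h1 := h _ hx
        have h2 : g x = x := g.injective h1
        rwa [h2] at hx
      · intro hx
        rw [h x hx]
        exact hx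
    refine ⟨hN, ?_⟩
    apply AlgEquiv.ext
    intro x
    exact Subtype.ext (h x x.2)

lemma dat_up (L : IntermediateField ℚ Qb) [FiniteDimensional ℚ L] (C : Subgroup (AutF L)) :
    (dat L).up C = (fixF L C).fixingSubgroup := by
  ext g
  rw [Data.mem_up, IntermediateField.mem_fixingSubgroup_iff]
  constructor
  · rintro ⟨h, h1⟩ x hx
    have hxL : x ∈ L := IntermediateField.lift_le _ hx
    have h2 : (⟨x, hxL⟩ : L) ∈ IntermediateField.fixedField C := (IntermediateField.mem_lift ⟨x, hxL⟩).1 hx
    have h3 := h2 ⟨_, h1⟩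
    exact congrArg Subtype.val h3
  · intro h
    set E : IntermediateField ℚ L := IntermediateField.fixedField C with hE
    have hgal : IsGalois E L := IsGalois.of_fixed_field L C
    have hnor : Normal E L := hgal.to_normal
    have hg : ∀ x : E, g (algebraMap E Qb x) = algebraMap E Qb x := by
      intro x
      apply h
      exact (IntermediateField.mem_lift (x : L)).2 x.2
    let g' : Qb ≃ₐ[E] Qb := { (g : Qb ≃+* Qb) with commutes' := hg }
    have h1 : ∀ x : L, g (x : Qb) = ((g'.restrictNormal L x : L) : Qb) := fun x =>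
      (g'.restrictNormal_commutes L x).symm
    have hN : g ∈ stab L := by
      intro x
      constructor
      · intro hx
        have h3 := h1 ((g'.restrictNormal L).symm ⟨_, hx⟩)
        rw [AlgEquiv.apply_symm_apply] at h3
        have h4 : ((g'.restrictNormal L).symm ⟨_, hx⟩ : Qb) = x := g.injective h3
        rw [← h4]
        exact ((g'.restrictNormal L).symm ⟨_, hx⟩).2
      · intro hx
        rw [h1 ⟨x, hx⟩]
        exact (g'.restrictNormal L ⟨x, hx⟩).2
    refine ⟨hN, ?_⟩
    have h2 : restr L ⟨g, hN⟩ ∈ E.fixingSubgroup := by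
      rw [IntermediateField.mem_fixingSubgroup_iff]
      intro x hx
      exact Subtype.ext (hg ⟨x, hx⟩)
    rwa [hE, IntermediateField.fixingSubgroup_fixedField] at h2

/-- **norm relations for Schneider's conjecture** -/
theorem schneider_of_relation (p : ℕ) [Fact p.Prime] (r : ℤ) (L : IntermediateField ℚ Qb) [FiniteDimensional ℚ L]
    (S : Set (Subgroup (AutF L))) (h1 : HasRelation (AutF L) S)
    (hS : ∀ C ∈ S, Schneider p r (fixF L C)) : Schneider p r L := by
  have hU : IsOpen ((dat L).U : Set GQ) := by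
    rw [dat_U]
    exact IntermediateField.fixingSubgroup_isOpen L
  have := vanishes_of_relation (chi p r) (locals p) (dat L) (locals_conj p) hU S h1 fun C hC => by
    rw [dat_up]
    exact hS C hC
  rwa [dat_U] at this

end Pool.Agent.TH957.Sch
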