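import Pool.Agent.TH957.Sch.Fld

/-!
# Schneider's conjecture: descent to subfields, and the two families of remaining fields
-/

namespace Pool.Agent.TH957.Sch

open Pool.Agent.TH957.Zag (nrm normIdeal CyclicPQ one_mem_normIdeal normIdeal_mono prime_of_pq PrimeElements)

section Descent

variable {G : Type} [Group G] {K : Type} [Field K] [CharZero K] (ψ : G →* K)

/-- restriction to a subgroup of finite index is injective -/
lemma cob_of_finite (E V : Subgroup G) (hfin : Finite (E ⧸ V.subgroupOf E)) (f : G → K) (hf : IsCrossed ψ E f)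
    (hc : IsCob ψ (E ⊓ V) f) : IsCob ψ E f := by
  classical
  have := Fintype.ofFinite (E ⧸ V.subgroupOf E)
  obtain ⟨m, hm⟩ := hc
  set F : G → K := fun g => f g - (ψ g - 1) * m with hF
  have hFc : IsCrossed ψ E F := by
    intro g hg h hh
    simp only [hF]
    rw [hf g hg h hh, map_mul]
    ring
  have hF0 : ∀ u ∈ E, u ∈ V → F u = 0 := by
    intro u hu hu'
    simp only [hF]
    rw [hm u ⟨hu, hu'⟩, sub_self]
  have hconst : ∀ g h : E, (QuotientGroup.mk g : E ⧸ V.subgroupOf E) = QuotientGroup.mk h → F g = F h := by
    intro g h hgh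
    rw [QuotientGroup.eq, Subgroup.mem_subgroupOf] at hgh
    have h1 : (h : G) = g * ((g⁻¹ * h : E) : G) := by
      push_cast
      group
    rw [h1, hFc g g.2 _ (g⁻¹ * h).2, hF0 _ (g⁻¹ * h).2 hgh, mul_zero, add_zero]
  set q₀ : ℕ := Fintype.card (E ⧸ V.subgroupOf E) with hq₀
  have hcard : (q₀ : K) ≠ 0 := by
    have : q₀ ≠ 0 := Fintype.card_ne_zero
    exact_mod_cast this
  have key : ∀ g : E, (q₀ : K) * F g = (1 - ψ g) * ∑ q : E ⧸ V.subgroupOf E, F (q.out : E) := by
    intro g
    have h1 : ∑ q : E ⧸ V.subgroupOf E, F ((g : G) * (q.out : E)) = ∑ q : E ⧸ V.subgroupOf E, F (q.out : E) := by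
      rw [← Equiv.sum_comp (MulAction.toPerm g) (fun q : E ⧸ V.subgroupOf E => F (q.out : E))]
      refine Finset.sum_congr rfl fun q _ => ?_
      apply hconst (g * q.out) (MulAction.toPerm g q).out
      rw [MulAction.toPerm_apply, QuotientGroup.out_eq']
      conv_rhs => rw [← QuotientGroup.out_eq' q]
      rfl
    have h2 : ∑ q : E ⧸ V.subgroupOf E, F ((g : G) * (q.out : E)) =
        (q₀ : K) * F g + ψ g * ∑ q : E ⧸ V.subgroupOf E, F (q.out : E) := by
      rw [Finset.sum_congr rfl fun q _ => hFc g g.2 _ (q.out : E).2, Finset.sum_add_distrib, Finset.sum_const,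
        nsmul_eq_mul, Finset.mul_sum, Finset.card_univ]
    rw [h1] at h2
    linear_combination -h2
  refine ⟨m - (q₀ : K)⁻¹ * ∑ q : E ⧸ V.subgroupOf E, F (q.out : E), ?_⟩
  intro g hg
  have h1 := key ⟨g, hg⟩
  have h2 : F g = (q₀ : K)⁻¹ * ((1 - ψ g) * ∑ q : E ⧸ V.subgroupOf E, F (q.out : E)) := by
    rw [← h1, inv_mul_cancel_left₀ hcard]
  have h3 : f g = F g + (ψ g - 1) * m := by simp [hF]
  rw [h3, h2]
  ring

/-- descent of the vanishing along a subgroup of finite index -/
theorem vanishes_of_le [TopologicalSpace G] [TopologicalSpace K] (𝒯 : Set (Subgroup G)) (E V : Subgroup G)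
    (hVE : V ≤ E) (hfin : Finite (E ⧸ V.subgroupOf E)) (hV : Vanishes ψ 𝒯 V) : Vanishes ψ 𝒯 E := by
  intro f hf
  have h1 : InSel ψ 𝒯 V f := by
    refine ⟨fun g hg h hh => hf.1 g (hVE hg) h (hVE hh), hf.2.1.mono hVE, fun T hT => ?_⟩
    obtain ⟨m, hm⟩ := hf.2.2 T hT
    exact ⟨m, fun g hg => hm g ⟨hg.1, hVE hg.2⟩⟩
  obtain ⟨m, hm⟩ := hV f h1
  exact cob_of_finite ψ E V hfin f hf.1 ⟨m, fun g hg => hm g hg.2⟩

end Descent

section Center

/-- a finite abelian group is cyclic if its `q`-torsion is cyclic for all primes `q` -/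
lemma cyclic_of_torsion {Z : Type} [CommGroup Z] [Finite Z]
    (h : ∀ q : ℕ, q.Prime → IsCyclic (powMonoidHom q : Z →* Z).ker) : IsCyclic Z := by
  classical
  have := Fintype.ofFinite Z
  have h1 : ∀ q : ℕ, q.Prime → Nat.card (powMonoidHom q : Z →* Z).ker ≤ q := by
    intro q hq
    have := h q hq
    obtain ⟨g, hg⟩ := IsCyclic.exists_ofOrder_eq_natCard (α := (powMonoidHom q : Z →* Z).ker)
    rw [← hg]
    apply Nat.le_of_dvd hq.pos
    apply orderOf_dvd_of_pow_eq_one
    exact Subtype.ext g.2
  have h2 : ∀ n : ℕ, 0 < n → Nat.card (powMonoidHom n : Z →* Z).ker ≤ n := by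
    intro n
    induction n using Nat.recOnMul with
    | zero => intro h0; exact absurd h0 (lt_irrefl 0)
    | one =>
      intro _
      have : (powMonoidHom 1 : Z →* Z).ker = ⊥ := by
        ext x
        simp
      rw [this, Subgroup.card_bot]
    | prime q hq => intro _; exact h1 q hq
    | mul a b ha hb =>
      intro hab
      have ha0 : 0 < a := Nat.pos_of_mul_pos_right hab |> fun h => by
        rcases Nat.eq_zero_or_pos a with h | h
        · rw [h, zero_mul] at hab; exact absurd hab (lt_irrefl 0)
        · exact h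
      have hb0 : 0 < b := by
        rcases Nat.eq_zero_or_pos b with h | h
        · rw [h, mul_zero] at hab; exact absurd hab (lt_irrefl 0)
        · exact h
      set φ : (powMonoidHom (a * b) : Z →* Z).ker →* Z :=
        (powMonoidHom a : Z →* Z).comp (powMonoidHom (a * b) : Z →* Z).ker.subtype with hφ
      have h3 := Subgroup.card_mul_index φ.ker
      rw [Subgroup.index_ker] at h3
      have h4 : Nat.card φ.ker ≤ Nat.card (powMonoidHom a : Z →* Z).ker := by
        apply Nat.card_le_card_of_injective
          (fun x : φ.ker => (⟨((x : (powMonoidHom (a * b) : Z →* Z).ker) : Z), x.2⟩ : (powMonoidHom a : Z →* Z).ker))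
        intro x y hxy
        have h9 : (((x : (powMonoidHom (a * b) : Z →* Z).ker)) : Z) = ((y : (powMonoidHom (a * b) : Z →* Z).ker) : Z) :=
          congrArg (fun z : (powMonoidHom a : Z →* Z).ker => (z : Z)) hxy
        exact Subtype.ext (Subtype.ext h9)
      have h5 : φ.range ≤ (powMonoidHom b : Z →* Z).ker := by
        rintro _ ⟨x, rfl⟩
        have h6 : (x : Z) ^ (a * b) = 1 := x.2
        show ((x : Z) ^ a) ^ b = 1
        rw [← pow_mul, h6]
      have h6 : Nat.card φ.range ≤ Nat.card (powMonoidHom b : Z →* Z).ker :=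
        Nat.card_le_card_of_injective (Subgroup.inclusion h5) (Subgroup.inclusion_injective h5)
      rw [← h3]
      exact Nat.mul_le_mul (h4.trans (ha ha0)) (h6.trans (hb hb0))
  apply isCyclic_of_card_pow_eq_one_le
  intro n hn
  have h3 := h2 n hn
  have h4 : Nat.card (powMonoidHom n : Z →* Z).ker = (Finset.univ.filter fun a : Z => a ^ n = 1).card := by
    apply Nat.subtype_card
    intro x
    simp [MonoidHom.mem_ker]
  rw [h4] at h3
  exact h3

/-- the same for a group in which all elements commute -/
lemma cyclic_of_torsion' {Z : Type} [Group Z] [Finite Z] (hcomm : ∀ a b : Z, a * b = b * a)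
    (h : ∀ q : ℕ, q.Prime → ∀ H : Subgroup Z, (∀ x ∈ H, x ^ q = 1) → IsCyclic H) : IsCyclic Z := by
  let _ : CommGroup Z := { (inferInstance : Group Z) with mul_comm := hcomm }
  exact cyclic_of_torsion fun q hq => h q hq _ fun x hx => hx

end Center

/-- `ℚ[Aut L]` has no norm relation -/
def NoRelation (L : IntermediateField ℚ Qb) [FiniteDimensional ℚ L] : Prop :=
  ¬ HasRelation (AutF L) {C : Subgroup (AutF L) | C ≠ ⊥}

lemma NoRelation.cyclicPQ {L : IntermediateField ℚ Qb} [FiniteDimensional ℚ L] (h : NoRelation L) :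
    CyclicPQ (AutF L) := by
  intro H p q hp hq hc
  by_contra hH
  apply h
  refine normIdeal_mono ?_ (one_mem_normIdeal hH (prime_of_pq hp hq hc hH))
  rintro C ⟨_, hC⟩
  rintro rfl
  rw [Subgroup.card_bot] at hC
  exact Nat.not_prime_one hC

section Fields

variable (p : ℕ) [Fact p.Prime] (r : ℤ)

instance : IsGalois ℚ Qb := ⟨⟩

/-- descent to subfields -/
theorem schneider_of_le {L L' : IntermediateField ℚ Qb} (h : L ≤ L') [FiniteDimensional ℚ L'] :
    Schneider p r L' → Schneider p r L := by
  intro hL
  have : FiniteDimensional ℚ L :=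
    FiniteDimensional.of_injective (IntermediateField.inclusion h).toLinearMap (IntermediateField.inclusion_injective h)
  apply vanishes_of_le (chi p r) (locals p) L.fixingSubgroup L'.fixingSubgroup
    (IntermediateField.fixingSubgroup_le h) _ hL
  apply Subgroup.quotient_finite_of_isOpen' _ _ (IntermediateField.fixingSubgroup_isOpen L)
  exact (IntermediateField.fixingSubgroup_isOpen L').preimage continuous_subtype_val

noncomputable instance fixF_fin (L : IntermediateField ℚ Qb) [FiniteDimensional ℚ L] (C : Subgroup (AutF L)) :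
    FiniteDimensional ℚ (fixF L C) :=
  Module.Finite.equiv (IntermediateField.liftAlgEquiv (IntermediateField.fixedField C)).toLinearEquiv

lemma finrank_fixF_lt (L : IntermediateField ℚ Qb) [FiniteDimensional ℚ L] (C : Subgroup (AutF L))
    (hC : 1 < Nat.card C) : Module.finrank ℚ (fixF L C) < Module.finrank ℚ L := by
  have h0 : Module.finrank ℚ (fixF L C) = Module.finrank ℚ (IntermediateField.fixedField C) :=
    (LinearEquiv.finrank_eq (IntermediateField.liftAlgEquiv (IntermediateField.fixedField C)).toLinearEquiv).symm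
  have h1 : Module.finrank (IntermediateField.fixedField C) L = Nat.card C :=
    IntermediateField.finrank_fixedField_eq_card C
  have h2 := Module.finrank_mul_finrank ℚ (IntermediateField.fixedField C) L
  have h3 : 0 < Module.finrank ℚ (IntermediateField.fixedField C) := Module.finrank_pos
  rw [h0, ← h2, h1]
  nlinarith

/-- all number fields and the fields without norm relation -/
theorem all_iff : (∀ (L : IntermediateField ℚ Qb) [FiniteDimensional ℚ L], Schneider p r L) ↔
    ∀ (L : IntermediateField ℚ Qb) [FiniteDimensional ℚ L], NoRelation L → Schneider p r L := by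
  refine ⟨fun h L _ _ => h L, fun h => ?_⟩
  have key : ∀ d : ℕ, ∀ (L : IntermediateField ℚ Qb) [FiniteDimensional ℚ L], Module.finrank ℚ L = d →
      Schneider p r L := by
    intro d
    induction d using Nat.strong_induction_on with
    | _ d ih =>
      intro L _ hd
      by_cases h1 : NoRelation L
      · exact h L h1
      · unfold NoRelation at h1
        rw [not_not] at h1
        apply schneider_of_relation p r L _ h1
        intro C hC
        apply ih _ _ (fixF L C) rfl
        rw [← hd]
        exact finrank_fixF_lt L C (Subgroup.one_lt_card_iff_ne_bot C |>.2 hC)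
  intro L _
  exact key _ L rfl

/-- all number fields and the Galois extensions of `ℚ` with cyclic center -/
theorem all_iff_galois : (∀ (L : IntermediateField ℚ Qb) [FiniteDimensional ℚ L], Schneider p r L) ↔
    ∀ (L : IntermediateField ℚ Qb) [FiniteDimensional ℚ L], IsGalois ℚ L →
      CyclicCenter (AutF L) → Schneider p r L := by
  refine ⟨fun h L _ _ _ => h L, fun h => ?_⟩
  have key : ∀ d : ℕ, ∀ (L : IntermediateField ℚ Qb) [FiniteDimensional ℚ L], IsGalois ℚ L →
      Module.finrank ℚ L = d → Schneider p r L := by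
    intro d
    induction d using Nat.strong_induction_on with
    | _ d ih =>
      intro L _ hG hd
      by_cases h1 : CyclicCenter (AutF L)
      · exact h L hG h1
      · have h2 : ∃ q : ℕ, q.Prime ∧ ∃ P : Subgroup (Subgroup.center (AutF L)), (∀ x ∈ P, x ^ q = 1) ∧
            ¬ IsCyclic P := by
          by_contra hcon
          push Not at hcon
          refine h1 (cyclic_of_torsion' ?_ hcon)
          intro a b
          exact Subtype.ext (Subgroup.mem_center_iff.1 b.2 a)
        obtain ⟨q, hq, P, hP, hcyc⟩ := h2
        set H : Subgroup (AutF L) := P.map (Subgroup.center (AutF L)).subtype with hH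
        have hHcyc : ¬ IsCyclic H := by
          intro hc
          apply hcyc
          exact isCyclic_of_surjective
            (P.equivMapOfInjective (Subgroup.center (AutF L)).subtype (Subgroup.subtype_injective _)).symm
            (MulEquiv.surjective _)
        have hHcen : H ≤ Subgroup.center (AutF L) := by
          rintro _ ⟨x, _, rfl⟩
          exact x.2
        have hHp : PrimeElements H := by
          rintro _ ⟨x, hx, rfl⟩ hx1
          have h3 : x ^ q = 1 := hP x hx
          have h4 : ((x : L ≃ₐ[ℚ] L)) ^ q = 1 := by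
            rw [← Subgroup.coe_pow, h3]
            rfl
          have h5 : orderOf (x : L ≃ₐ[ℚ] L) ∣ q := orderOf_dvd_of_pow_eq_one h4
          have h6 : orderOf (x : L ≃ₐ[ℚ] L) ≠ 1 := fun h6 => hx1 (orderOf_eq_one_iff.1 h6)
          have h7 := (hq.eq_one_or_self_of_dvd _ h5).resolve_left h6
          show (orderOf (x : L ≃ₐ[ℚ] L)).Prime
          rw [h7]
          exact hq
        apply schneider_of_relation p r L _ (one_mem_normIdeal hHcyc hHp)
        rintro C ⟨hC1, hC2⟩
        have hCn : C.Normal := by
          constructor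
          intro c hc g
          have h8 := Subgroup.mem_center_iff.1 (hHcen (hC1 hc)) g
          rw [h8, mul_inv_cancel_right]
          exact hc
        have hE := IsGalois.of_fixedField_normal_subgroup (K := ℚ) (L := L) C
        have e := IntermediateField.liftAlgEquiv (IntermediateField.fixedField C)
        have hCG : IsGalois ℚ (fixF L C) := @IsGalois.of_algEquiv ℚ _ _ _ _ _ _ _ hE e
        apply ih _ _ (fixF L C) hCG rfl
        rw [← hd]
        exact finrank_fixF_lt L C hC2.one_lt
  intro L _
  have h3 : L ≤ IntermediateField.normalClosure ℚ L Qb := L.le_normalClosure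
  have h4 : FiniteDimensional ℚ (IntermediateField.normalClosure ℚ L Qb) :=
    normalClosure.is_finiteDimensional ℚ L Qb
  have h5 : Normal ℚ (IntermediateField.normalClosure ℚ L Qb) := normalClosure.normal ℚ L Qb
  have h6 : IsGalois ℚ (IntermediateField.normalClosure ℚ L Qb) := ⟨⟩
  exact schneider_of_le p r h3 (key _ _ h6 rfl)

end Fields

end Pool.Agent.TH957.Sch
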